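import Pool.Agent.helper79.EPT.Spec

/-! DBL: the double sum. -/

set_option autoImplicit false

namespace Pool.Agent.EPT

open Finset

theorem DBL : DBL_stmt := by
  intro α β G Q hG hQ
  have hdiag : ∀ p ∈ G, ∀ q ∈ Q, cc (p * q) (pr α p * pr β q) (p * q) (pr α p * pr β q) /
      (((pr α p * pr β q : ℕ) : ℝ) * ((pr α p * pr β q : ℕ) : ℝ)) = (1 / (pr α p : ℝ)) * (1 / (pr β q : ℝ)) := by
    intro p hp q hq
    have h1 : ((pr α p : ℕ) : ℝ) ≠ 0 := by exact_mod_cast (hG p hp).ne'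
    have h2 : ((pr β q : ℕ) : ℝ) ≠ 0 := by exact_mod_cast (hQ q hq).ne'
    unfold cc
    rw [if_pos (by rw [sub_self]; exact dvd_zero _), Nat.gcd_self]
    push_cast
    field_simp
  rw [sum_product]
  simp only [sum_product]
  have step : ∀ p₁ ∈ G, (∑ q₁ ∈ Q, ∑ p₂ ∈ G, ∑ q₂ ∈ Q,
      cc (p₁ * q₁) (pr α p₁ * pr β q₁) (p₂ * q₂) (pr α p₂ * pr β q₂) /
        (((pr α p₁ * pr β q₁ : ℕ) : ℝ) * ((pr α p₂ * pr β q₂ : ℕ) : ℝ))) =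
      (1 / (pr α p₁ : ℝ)) * (∑ q ∈ Q, 1 / (pr β q : ℝ)) +
      (∑ q₁ ∈ Q, ∑ q₂ ∈ Q.erase q₁, cc (p₁ * q₁) (pr α p₁ * pr β q₁) (p₁ * q₂) (pr α p₁ * pr β q₂) /
        (((pr α p₁ * pr β q₁ : ℕ) : ℝ) * ((pr α p₁ * pr β q₂ : ℕ) : ℝ))) +
      ∑ p₂ ∈ G.erase p₁, 1 / ((pr α p₁ : ℝ) * (pr α p₂ : ℝ)) *
        ∑ q₁ ∈ Q, ∑ q₂ ∈ Q, cc (p₁ * q₁) (pr α p₁ * pr β q₁) (p₂ * q₂) (pr α p₂ * pr β q₂) /
          ((pr β q₁ : ℝ) * (pr β q₂ : ℝ)) := by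
    intro p₁ hp₁
    rw [sum_comm, ← add_sum_erase G _ hp₁]
    congr 1
    · rw [mul_sum, ← sum_add_distrib]
      refine sum_congr rfl fun q₁ hq₁ => ?_
      rw [← add_sum_erase Q _ hq₁, hdiag p₁ hp₁ q₁ hq₁]
    · refine sum_congr rfl fun p₂ _ => ?_
      rw [mul_sum]
      refine sum_congr rfl fun q₁ _ => ?_
      rw [mul_sum]
      refine sum_congr rfl fun q₂ _ => ?_
      push_cast
      ring
  rw [sum_congr rfl step, sum_add_distrib, sum_add_distrib, sum_mul]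

end Pool.Agent.EPT
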